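import Pool.Agent.Work.MP_ef7f46_tn.Interface

/-!
MP_ef7f46_co, project TN: block BALB (helper17).
-/

set_option autoImplicit false
open Classical Finset

noncomputable section

namespace TN

namespace BALB

lemma dg_mul {Q Λ : Type} [Fintype Λ] (inc : Λ → Finset Q) (w : Λ → ℝ) (R : ℝ) (hR : R ≠ 0)
    (y : Q) : dg inc w y = R * dg inc (fun ℓ => w ℓ / R) y := by
  unfold dg
  rw [Finset.mul_sum]
  apply Finset.sum_congr rfl
  intro ℓ _
  split_ifs
  · field_simp
  · simp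

lemma dm_spec {Q Λ : Type} [Fintype Q] [Fintype Λ] (X : Ctx Q Λ) (β : Fin X.b → Q)
    (J : Finset (Fin X.b)) (h : ∃ g, IsDM X β J g) : IsDM X β J (dm X β J) := by
  unfold dm
  rw [dif_pos h]
  exact h.choose_spec

/-- Cauchy-Schwarz: the sum of the errors -/
lemma sum_abs_le {Q : Type} [Fintype Q] (a : Q → ℝ) (q t N : ℝ) (hq : (Fintype.card Q : ℝ) = q)
    (ht : 0 ≤ t) (hN : 0 ≤ N) (h : ∑ y, (a y) ^ 2 ≤ t ^ 2 * N ^ 2 * q) :
    ∑ y, |a y| ≤ t * N * q := by
  have hq0 : 0 ≤ q := by rw [← hq]; positivity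
  have h1 : (∑ y, |a y|) ^ 2 ≤ (t * N * q) ^ 2 := by
    have h2 := sq_sum_le_card_mul_sum_sq (s := (univ : Finset Q)) (f := fun y => |a y|)
    rw [card_univ, hq] at h2
    simp only [sq_abs] at h2
    calc (∑ y, |a y|) ^ 2 ≤ q * ∑ y, (a y) ^ 2 := h2
      _ ≤ q * (t ^ 2 * N ^ 2 * q) := mul_le_mul_of_nonneg_left h hq0
      _ = (t * N * q) ^ 2 := by ring
  exact le_of_sq_le_sq h1 (by positivity)

end BALB

open BALB in
theorem balb_ok (h1 : Stmt_CHE) (h2 : Stmt_LCARD) : Stmt_BALB := by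
  intro Q Λ _ _ X hX w R hR hw β hDM F
  obtain ⟨_, hid, hnn, _⟩ := h2 Q Λ X.inc X.N X.M hX.lin
  have hv : U01 (fun ℓ => w ℓ / R) := fun ℓ =>
    ⟨div_nonneg (hw ℓ).1 hR.le, (div_le_one hR).mpr (hw ℓ).2⟩
  obtain ⟨hnet, hnear, _⟩ := h1 Q Λ X hX _ hv
  set v : Λ → ℝ := fun ℓ => w ℓ / R with hvdef
  set v' := appr X v with hv'def
  have hv' : U01 v' := hX.net01 v' hnet
  obtain ⟨hg01, hg⟩ := dm_spec X β F (hDM F)
  set g := dm X β F with hgdef
  have hNpos : (0 : ℝ) < X.N := by exact_mod_cast hX.lin.Npos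
  have hMpos : (0 : ℝ) < X.M := by exact_mod_cast hX.lin.Mpos
  have hqpos : 0 < qq X := mul_pos hNpos hMpos
  have hbpos : (0 : ℝ) < X.b := by exact_mod_cast hX.bpos
  have hcard : (Fintype.card Q : ℝ) = qq X := by
    rw [hX.lin.cardQ, qq]
    push_cast
    ring
  -- the intensities
  have hhh : ∑ ℓ, w ℓ * hh X β F ℓ = (X.b / qq X) * (R * ∑ y, g y * dg X.inc v y) := by
    have e1 : ∑ ℓ, w ℓ * hh X β F ℓ = (X.b / qq X) * ∑ ℓ, w ℓ * ∑ y ∈ X.inc ℓ, g y := by
      rw [Finset.mul_sum]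
      apply Finset.sum_congr rfl
      intro ℓ _
      rw [hh]
      ring
    rw [e1, ← hid w g]
    congr 1
    rw [Finset.mul_sum]
    apply Finset.sum_congr rfl
    intro y _
    rw [dg_mul X.inc w R hR.ne' y]
    ring
  -- Cauchy-Schwarz
  have hcs : ∑ y, |dg X.inc v y - dg X.inc v' y| ≤ X.tau * X.N * qq X :=
    sum_abs_le _ _ _ _ hcard hX.taupos.le hNpos.le hnear
  have hgg : ∑ y, g y * dg X.inc v' y ≤ ∑ y, g y * dg X.inc v y + X.tau * X.N * qq X := by
    have e1 : ∑ y, g y * dg X.inc v' y ≤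
        ∑ y, (g y * dg X.inc v y + |dg X.inc v y - dg X.inc v' y|) := by
      apply Finset.sum_le_sum
      intro y _
      have e2 := (hg01 y).1
      have e3 := (hg01 y).2
      have e4 := neg_abs_le (dg X.inc v y - dg X.inc v' y)
      have e5 := abs_nonneg (dg X.inc v y - dg X.inc v' y)
      nlinarith
    rw [Finset.sum_add_distrib] at e1
    linarith
  have hdm := (abs_le.mp (hg v' hnet)).2
  -- splitting
  have hsplit : ∑ j ∈ F, dg X.inc w (β j) =
      ∑ j ∈ F.filter (fun j => β j ∈ Exc X v), dg X.inc w (β j) +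
      ∑ j ∈ F.filter (fun j => ¬ β j ∈ Exc X v), dg X.inc w (β j) :=
    (Finset.sum_filter_add_sum_filter_not F _ _).symm
  have hnon : ∑ j ∈ F.filter (fun j => ¬ β j ∈ Exc X v), dg X.inc w (β j) ≤
      R * ∑ j ∈ F, dg X.inc v' (β j) + X.b * (R * (X.eta * X.N)) := by
    have e1 : ∑ j ∈ F.filter (fun j => ¬ β j ∈ Exc X v), dg X.inc w (β j) ≤
        ∑ j ∈ F.filter (fun j => ¬ β j ∈ Exc X v),
          (R * dg X.inc v' (β j) + R * (X.eta * X.N)) := by
      apply Finset.sum_le_sum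
      intro j hj
      rw [Finset.mem_filter] at hj
      have e2 : |dg X.inc v (β j) - dg X.inc v' (β j)| ≤ X.eta * X.N := by
        by_contra hcon
        apply hj.2
        rw [Exc, Finset.mem_filter]
        exact ⟨mem_univ _, lt_of_not_ge hcon⟩
      have e3 := (abs_le.mp e2).2
      rw [dg_mul X.inc w R hR.ne' (β j)]
      nlinarith
    refine e1.trans ?_
    rw [Finset.sum_add_distrib, ← Finset.mul_sum]
    apply add_le_add
    · apply mul_le_mul_of_nonneg_left _ hR.le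
      apply Finset.sum_le_sum_of_subset_of_nonneg (Finset.filter_subset _ _)
      intro j _ _
      exact hnn v' (fun ℓ => (hv' ℓ).1) _
    · rw [Finset.sum_const, nsmul_eq_mul]
      apply mul_le_mul_of_nonneg_right _ (mul_nonneg hR.le (mul_nonneg hX.etapos.le hNpos.le))
      have e4 : (F.filter (fun j => ¬ β j ∈ Exc X v)).card ≤ X.b := by
        have := Finset.card_le_univ (F.filter (fun j => ¬ β j ∈ Exc X v))
        rwa [Fintype.card_fin] at this
      exact_mod_cast e4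
  rw [hsplit, hhh]
  have hfin : R * ∑ j ∈ F, dg X.inc v' (β j) ≤
      (X.b / qq X) * (R * ∑ y, g y * dg X.inc v y) + R * (X.b * (X.tau * X.N)) +
      R * (X.eps * X.N * X.b) := by
    have e1 : ∑ j ∈ F, dg X.inc v' (β j) ≤
        (X.b / qq X) * ∑ y, g y * dg X.inc v' y + X.eps * X.N * X.b := by linarith
    have e2 : (X.b / qq X) * ∑ y, g y * dg X.inc v' y ≤
        (X.b / qq X) * (∑ y, g y * dg X.inc v y + X.tau * X.N * qq X) :=
      mul_le_mul_of_nonneg_left hgg (div_nonneg hbpos.le hqpos.le)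
    have e3 : (X.b / qq X) * (∑ y, g y * dg X.inc v y + X.tau * X.N * qq X) =
        (X.b / qq X) * (∑ y, g y * dg X.inc v y) + X.b * (X.tau * X.N) := by
      field_simp
    have e4 : ∑ j ∈ F, dg X.inc v' (β j) ≤ (X.b / qq X) * (∑ y, g y * dg X.inc v y) +
        X.b * (X.tau * X.N) + X.eps * X.N * X.b := by linarith
    have e5 := mul_le_mul_of_nonneg_left e4 hR.le
    have e6 : R * ((X.b / qq X) * (∑ y, g y * dg X.inc v y) +
        X.b * (X.tau * X.N) + X.eps * X.N * X.b) =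
        (X.b / qq X) * (R * ∑ y, g y * dg X.inc v y) + R * (X.b * (X.tau * X.N)) +
      R * (X.eps * X.N * X.b) := by ring
    linarith
  have hlast : X.b * R * X.N * (X.tau + X.eta + X.eps) =
      R * (X.b * (X.tau * X.N)) + X.b * (R * (X.eta * X.N)) + R * (X.eps * X.N * X.b) := by ring
  linarith

end TN
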