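import Pool.Agent.Work.MP_ef7f46_tn.Interface

/-!
MP_ef7f46_co, project TN: block TYS (helper17), second moments of typical sequences.
-/

set_option autoImplicit false
open Classical Finset

noncomputable section

namespace TN

namespace TYS

lemma sum_prod {P Q : Type} [Fintype P] [DecidableEq P] [Fintype Q] (F : P → Q → ℝ) :
    ∑ z : P → Q, ∏ p, F p (z p) = ∏ p, ∑ x, F p x := by
  rw [Finset.prod_univ_sum, Fintype.piFinset_univ]

/-- one coordinate -/
lemma sum_one {P Q : Type} [Fintype P] [DecidableEq P] [Fintype Q] (q : ℝ) (hq : (Fintype.card Q : ℝ) = q)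
    (hq0 : q ≠ 0) (f : Q → ℝ) (p : P) :
    ∑ z : P → Q, f (z p) = q ^ (Fintype.card P) * ((∑ x, f x) / q) := by
  have h1 : ∀ z : P → Q, f (z p) = ∏ p', (if p' = p then f (z p') else 1) := by
    intro z
    rw [Finset.prod_ite_eq']
    simp
  simp_rw [h1]
  rw [sum_prod (fun p' x => if p' = p then f x else 1)]
  have h2 : ∀ p' : P, ∑ x : Q, (if p' = p then f x else 1) =
      q * (if p' = p then (∑ x, f x) / q else 1) := by
    intro p'
    split_ifs
    · field_simp
    · rw [Finset.sum_const, card_univ, nsmul_eq_mul, hq]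
  simp_rw [h2]
  rw [Finset.prod_mul_distrib, Finset.prod_const, card_univ, Finset.prod_ite_eq']
  simp

/-- two coordinates -/
lemma sum_two {P Q : Type} [Fintype P] [DecidableEq P] [Fintype Q] (q : ℝ) (hq : (Fintype.card Q : ℝ) = q)
    (hq0 : q ≠ 0) (f g : Q → ℝ) (p p' : P) (hp : p ≠ p') :
    ∑ z : P → Q, f (z p) * g (z p') =
      q ^ (Fintype.card P) * (((∑ x, f x) / q) * ((∑ x, g x) / q)) := by
  have h1 : ∀ z : P → Q, f (z p) * g (z p') =
      ∏ r, ((if r = p then f (z r) else 1) * (if r = p' then g (z r) else 1)) := by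
    intro z
    rw [Finset.prod_mul_distrib, Finset.prod_ite_eq', Finset.prod_ite_eq']
    simp
  simp_rw [h1]
  rw [sum_prod (fun r x => (if r = p then f x else 1) * (if r = p' then g x else 1))]
  have h2 : ∀ r : P, ∑ x : Q, ((if r = p then f x else 1) * (if r = p' then g x else 1)) =
      q * ((if r = p then (∑ x, f x) / q else 1) * (if r = p' then (∑ x, g x) / q else 1)) := by
    intro r
    by_cases h3 : r = p
    · have h4 : r ≠ p' := fun h => hp (h3.symm.trans h)
      simp only [h3, if_true]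
      have h5 : p ≠ p' := hp
      simp only [h5, if_false, mul_one]
      field_simp
    · by_cases h4 : r = p'
      · subst h4
        simp only [h3, if_false, if_true, one_mul]
        field_simp
      · simp only [h3, h4, if_false, mul_one]
        rw [Finset.sum_const, card_univ, nsmul_eq_mul, hq]
        ring
  simp_rw [h2]
  rw [Finset.prod_mul_distrib, Finset.prod_const, card_univ, Finset.prod_mul_distrib,
    Finset.prod_ite_eq', Finset.prod_ite_eq']
  simp

lemma chi_eq_dg {Q Λ : Type} [Fintype Λ] (inc : Λ → Finset Q) (y x : Q) :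
    chi inc y x = dg inc (fun ℓ => if y ∈ inc ℓ then 1 else 0) x := by
  unfold chi dg
  rw [Finset.card_filter]
  push_cast
  apply Finset.sum_congr rfl
  intro ℓ _
  by_cases h1 : y ∈ inc ℓ <;> by_cases h2 : x ∈ inc ℓ <;> simp [h1, h2]

lemma sum_chi {Q Λ : Type} [Fintype Q] [Fintype Λ] (inc : Λ → Finset Q) (N M : ℕ)
    (h : Lin inc N M)
    (hid : ∀ (w : Λ → ℝ) (g : Q → ℝ), ∑ y, g y * dg inc w y = ∑ ℓ, w ℓ * ∑ y ∈ inc ℓ, g y)
    (y : Q) : ∑ x, chi inc y x ≤ (N : ℝ) ^ 2 := by
  have h1 := hid (fun ℓ => if y ∈ inc ℓ then 1 else 0) (fun _ => 1)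
  simp only [one_mul] at h1
  have h2 : ∑ x, chi inc y x = ∑ x, dg inc (fun ℓ => if y ∈ inc ℓ then 1 else 0) x :=
    Finset.sum_congr rfl fun x _ => chi_eq_dg inc y x
  rw [h2, h1]
  have h3 : ∀ ℓ : Λ, (if y ∈ inc ℓ then (1 : ℝ) else 0) * ∑ _x ∈ inc ℓ, (1 : ℝ) =
      (N : ℝ) * (if y ∈ inc ℓ then (1 : ℝ) else 0) := by
    intro ℓ
    rw [Finset.sum_const, h.line ℓ, nsmul_eq_mul]
    ring
  rw [Finset.sum_congr rfl fun ℓ _ => h3 ℓ, ← Finset.mul_sum, pow_two]
  apply mul_le_mul_of_nonneg_left _ (Nat.cast_nonneg _)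
  rw [Finset.sum_boole]
  exact_mod_cast h.deg y

lemma sum_chi_sq {Q Λ : Type} [Fintype Q] [Fintype Λ] (inc : Λ → Finset Q) (N M : ℕ)
    (h : Lin inc N M)
    (hid : ∀ (w : Λ → ℝ) (g : Q → ℝ), ∑ y, g y * dg inc w y = ∑ ℓ, w ℓ * ∑ y ∈ inc ℓ, g y)
    (y : Q) : ∑ x, chi inc y x * chi inc y x ≤ 2 * (N : ℝ) ^ 2 := by
  have h1 : ∀ x, chi inc y x * chi inc y x ≤ chi inc y x + (if x = y then (N : ℝ) ^ 2 else 0) := by
    intro x
    have h0 : 0 ≤ chi inc y x := by unfold chi; positivity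
    by_cases hx : x = y
    · rw [if_pos hx]
      have h2 : chi inc y x ≤ N := by
        unfold chi
        rw [hx]
        simp only [and_self]
        exact_mod_cast h.deg y
      nlinarith
    · rw [if_neg hx]
      have h2 : chi inc y x ≤ 1 := by
        unfold chi
        exact_mod_cast h.codeg y x (fun e => hx e.symm)
      nlinarith
  calc ∑ x, chi inc y x * chi inc y x ≤
      ∑ x, (chi inc y x + (if x = y then (N : ℝ) ^ 2 else 0)) :=
        Finset.sum_le_sum fun x _ => h1 x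
    _ = ∑ x, chi inc y x + (N : ℝ) ^ 2 := by
        rw [Finset.sum_add_distrib, Finset.sum_ite_eq']
        simp
    _ ≤ 2 * (N : ℝ) ^ 2 := by
        have := sum_chi inc N M h hid y
        linarith

end TYS

open TYS in
theorem tys_ok (h1 : Stmt_LCARD) : Stmt_TYS := by
  intro Q Λ _ _ X hX
  obtain ⟨_, hid, _, _⟩ := h1 Q Λ X.inc X.N X.M hX.lin
  have hNpos : (0 : ℝ) < X.N := by exact_mod_cast hX.lin.Npos
  have hMpos : (0 : ℝ) < X.M := by exact_mod_cast hX.lin.Mpos
  have hmpos : (0 : ℝ) < X.m := by exact_mod_cast hX.mpos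
  have hlpos : (0 : ℝ) < X.lam := by exact_mod_cast hX.lampos
  have hqpos : 0 < qq X := mul_pos hNpos hMpos
  have hcard : (Fintype.card Q : ℝ) = qq X := by
    rw [hX.lin.cardQ, qq]
    push_cast
    ring
  have hPos : Fintype.card (Pos X) = X.lam * X.M := by
    rw [← hX.mb]
    simp [Pos]
  have hmb : (X.m : ℝ) * X.b = X.lam * X.M := by exact_mod_cast hX.mb
  set n := X.lam * X.M with hn
  set q := qq X with hq
  -- fixed point and batch
  have hfix : ∀ (i : Fin X.m) (y : Q),
      ∑ z : Pos X → Q, (∑ j, chi X.inc y (z (i, j))) ^ 2 ≤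
        q ^ n * (X.b * (2 * (X.N : ℝ) ^ 2 / q) + X.b ^ 2 * ((X.N : ℝ) ^ 2 / q) ^ 2) := by
    intro i y
    have e1 : ∀ z : Pos X → Q, (∑ j, chi X.inc y (z (i, j))) ^ 2 =
        ∑ j, ∑ j', chi X.inc y (z (i, j)) * chi X.inc y (z (i, j')) := by
      intro z
      rw [pow_two, Finset.sum_mul_sum]
    rw [Finset.sum_congr rfl fun z _ => e1 z, Finset.sum_comm]
    have e2 : ∀ j : Fin X.b, ∑ z : Pos X → Q,
        ∑ j', chi X.inc y (z (i, j)) * chi X.inc y (z (i, j')) ≤
        ∑ j' : Fin X.b, ((if j' = j then q ^ n * (2 * (X.N : ℝ) ^ 2 / q) else 0) +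
          q ^ n * ((X.N : ℝ) ^ 2 / q) ^ 2) := by
      intro j
      rw [Finset.sum_comm]
      apply Finset.sum_le_sum
      intro j' _
      have hqn : 0 ≤ q ^ n := by positivity
      by_cases hj : j' = j
      · rw [if_pos hj, hj]
        have e3 := sum_one q hcard hqpos.ne' (fun x => chi X.inc y x * chi X.inc y x)
          ((i, j) : Pos X)
        rw [e3, hPos]
        have e4 := sum_chi_sq X.inc X.N X.M hX.lin hid y
        have e5 : (∑ x, chi X.inc y x * chi X.inc y x) / q ≤ 2 * (X.N : ℝ) ^ 2 / q :=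
          div_le_div_of_nonneg_right e4 hqpos.le
        have e6 := mul_le_mul_of_nonneg_left e5 hqn
        have e7 : 0 ≤ q ^ n * ((X.N : ℝ) ^ 2 / q) ^ 2 := by positivity
        linarith
      · rw [if_neg hj, zero_add]
        have hne : ((i, j) : Pos X) ≠ (i, j') := by
          intro h
          exact hj (Prod.ext_iff.mp h).2.symm
        have e3 := sum_two q hcard hqpos.ne' (fun x => chi X.inc y x) (fun x => chi X.inc y x)
          ((i, j) : Pos X) (i, j') hne
        rw [e3, hPos]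
        apply mul_le_mul_of_nonneg_left _ hqn
        have e4 := sum_chi X.inc X.N X.M hX.lin hid y
        have e5 : (∑ x, chi X.inc y x) / q ≤ (X.N : ℝ) ^ 2 / q :=
          div_le_div_of_nonneg_right e4 hqpos.le
        have e6 : 0 ≤ (∑ x, chi X.inc y x) / q := by
          apply div_nonneg _ hqpos.le
          apply Finset.sum_nonneg
          intro x _
          unfold chi
          positivity
        rw [pow_two]
        exact mul_le_mul e5 e5 e6 (by positivity)
    refine (Finset.sum_le_sum fun j _ => e2 j).trans (le_of_eq ?_)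
    simp only [Finset.sum_add_distrib, Finset.sum_ite_eq', mem_univ, if_true, Finset.sum_const,
      card_univ, Fintype.card_fin, nsmul_eq_mul]
    ring
  -- the mean
  have hmean : ∑ z : Pos X → Q, ∑ i : Fin X.m, ∑ y, (∑ j, chi X.inc y (z (i, j))) ^ 2 ≤
      (2 * X.lam / X.N + (X.lam : ℝ) ^ 2 / X.m) * X.N ^ 2 * q * q ^ n := by
    rw [Finset.sum_comm]
    have e1 : ∀ i : Fin X.m, ∑ z : Pos X → Q, ∑ y, (∑ j, chi X.inc y (z (i, j))) ^ 2 ≤
        q * (q ^ n * (X.b * (2 * (X.N : ℝ) ^ 2 / q) + X.b ^ 2 * ((X.N : ℝ) ^ 2 / q) ^ 2)) := by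
      intro i
      rw [Finset.sum_comm]
      refine (Finset.sum_le_sum fun y _ => hfix i y).trans (le_of_eq ?_)
      rw [Finset.sum_const, card_univ, nsmul_eq_mul, hcard]
    refine (Finset.sum_le_sum fun i _ => e1 i).trans (le_of_eq ?_)
    rw [Finset.sum_const, card_univ, Fintype.card_fin, nsmul_eq_mul]
    have hb : (X.b : ℝ) = X.lam * X.M / X.m := by
      field_simp
      linarith
    have hqd : q = X.N * X.M := rfl
    rw [hb, hqd]
    field_simp
  -- Markov
  have hT : 0 < 10 * (2 * X.lam / X.N + (X.lam : ℝ) ^ 2 / X.m) * X.N ^ 2 * q := by positivity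
  set T := 10 * (2 * X.lam / X.N + (X.lam : ℝ) ^ 2 / X.m) * X.N ^ 2 * q with hTdef
  have hS0 : ∀ z : Pos X → Q, 0 ≤ ∑ i : Fin X.m, ∑ y, (∑ j, chi X.inc y (z (i, j))) ^ 2 :=
    fun z => Finset.sum_nonneg fun i _ => Finset.sum_nonneg fun y _ => sq_nonneg _
  have hmark : ((univ.filter (fun z : Pos X → Q =>
      ¬ ∑ i : Fin X.m, ∑ y, (∑ j, chi X.inc y (z (i, j))) ^ 2 ≤ T)).card : ℝ) * T ≤
      ∑ z : Pos X → Q, ∑ i : Fin X.m, ∑ y, (∑ j, chi X.inc y (z (i, j))) ^ 2 := by
    rw [← nsmul_eq_mul, ← Finset.sum_const]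
    refine (Finset.sum_le_sum ?_).trans
      (Finset.sum_le_sum_of_subset_of_nonneg (Finset.filter_subset _ _) fun z _ _ => hS0 z)
    intro z hz
    rw [Finset.mem_filter] at hz
    exact (lt_of_not_ge hz.2).le
  have hfin : ((univ.filter (fun z : Pos X → Q =>
      ¬ ∑ i : Fin X.m, ∑ y, (∑ j, chi X.inc y (z (i, j))) ^ 2 ≤ T)).card : ℝ) * T ≤
      (1 / 10 * q ^ n) * T := by
    refine (hmark.trans hmean).trans (le_of_eq ?_)
    rw [hTdef]
    ring
  exact le_of_mul_le_mul_right hfin hT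

end TN
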